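import Pool.Agent.Helper16.AZ.Stmts

open Finset Filter MeasureTheory Topology
open scoped ComplexConjugate InnerProductSpace

namespace Pool.Agent.Helper16.AZ

open Pool.Agent.Helper16.MD (MS PB Am RW Rich)
open UnitAddTorus (mFourier)

/-- the tensor product of a vector and a conjugate vector -/
noncomputable def gam_t {d : ℕ} (v w : E d) : EuclideanSpace ℂ (Fin d × Fin d) :=
  WithLp.toLp 2 fun p => v p.1 * conj (w p.2)

theorem gam_inner {d : ℕ} (v w v' w' : E d) :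
    (inner ℂ (gam_t v w) (gam_t v' w') : ℂ) = inner ℂ v v' * conj (inner ℂ w w' : ℂ) := by
  simp only [PiLp.inner_apply, gam_t, RCLike.inner_apply]
  rw [Fintype.sum_prod_type, map_sum, Finset.sum_mul_sum]
  refine Finset.sum_congr rfl fun i _ => Finset.sum_congr rfl fun j _ => ?_
  simp only [map_mul, Complex.conj_conj]
  ring

theorem gam_norm {d : ℕ} (v w : E d) : ‖gam_t v w‖ = ‖v‖ * ‖w‖ := by
  have h1 : ‖gam_t v w‖ ^ 2 = (‖v‖ * ‖w‖) ^ 2 := by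
    have h2 : ((‖gam_t v w‖ ^ 2 : ℝ) : ℂ) = (((‖v‖ * ‖w‖) ^ 2 : ℝ) : ℂ) := by
      have h3 := gam_inner v w v w
      rw [inner_self_eq_norm_sq_to_K, inner_self_eq_norm_sq_to_K, inner_self_eq_norm_sq_to_K] at h3
      push_cast
      rw [mul_pow]
      simpa using h3
    exact_mod_cast h2
  have h4 : 0 ≤ ‖v‖ * ‖w‖ := by positivity
  exact (pow_left_inj₀ (norm_nonneg _) h4 two_ne_zero).1 h1

theorem gam_Icc {R : Type*} [AddCommMonoid R] (G : ℕ → R) (M : ℕ) :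
    ∑ y ∈ Icc 1 M, G y = ∑ n ∈ range M, G (n + 1) := by
  induction M with
  | zero => simp
  | succ M ih => rw [Finset.sum_Icc_succ_top (by omega), ih, Finset.sum_range_succ]

theorem st_GAM (h1 : ST_EQD) (h2 : ST_VDH) : ST_GAM := by
  intro r d β φ b u x H P P' hβ hφ hb hb1 hu hH
  obtain ⟨F, hF⟩ : ∃ F : ℕ → ℕ → T r → ℂ, F = fun h h' θ =>
    EE β φ b (P * h) (P * h') (x + P • θ) *
      conj (EE β φ b (P' * h) (P' * h') (x + P' • θ)) := ⟨_, rfl⟩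
  have hFc : ∀ h h', Continuous (F h h') := by
    intro h h'
    rw [hF]
    exact ((EE_continuous β φ b hφ.1 hb _ _).comp (by fun_prop)).mul
      (Complex.continuous_conj.comp ((EE_continuous β φ b hφ.1 hb _ _).comp (by fun_prop)))
  obtain ⟨t, ht⟩ : ∃ t : ℕ → EuclideanSpace ℂ (Fin d × Fin d), t = fun y =>
    gam_t (Wk β φ (P * y) b x) (Wk β φ (P' * y) b x) := ⟨_, rfl⟩
  have hin : ∀ y h h', (inner ℂ (t (y + h)) (t (y + h')) : ℂ) = F h h' (y • β) := by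
    intro y h h'
    rw [ht, hF]
    simp only
    rw [gam_inner]
    have e1 : ∀ Q k : ℕ, Q * (y + k) = Q * k + Q * y := fun Q k => by ring
    rw [e1 P h, e1 P h', e1 P' h, e1 P' h', EE_shift β φ b hφ.2, EE_shift β φ b hφ.2, mul_smul,
      mul_smul]
  have htn : ∀ y, ‖t y‖ ≤ 1 := by
    intro y
    rw [ht]
    simp only
    rw [gam_norm, Wk_norm β φ b hφ.2, Wk_norm β φ b hφ.2]
    exact mul_le_one₀ (hb1 _) (norm_nonneg _) (hb1 _)
  have hHR : (1 : ℝ) ≤ H := by exact_mod_cast hH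
  have hH0 : (0 : ℝ) < H := by linarith
  -- the limit
  have lim : ∀ h h', Tendsto (fun M : ℕ => (∑ y ∈ Icc 1 M, (F h h' (y • β)).re) / (M : ℝ)) atTop
      (𝓝 ((∫ θ, F h h' θ ∂(mm r)).re)) := by
    intro h h'
    have e1 := (Complex.continuous_re.tendsto _).comp (h1 r β hβ (F h h') (hFc h h') β)
    refine e1.congr fun M => ?_
    simp only [Function.comp]
    rw [Complex.div_natCast_re, Complex.re_sum, gam_Icc]
    congr 1
    refine Finset.sum_congr rfl fun n _ => ?_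
    rw [succ_nsmul']
  have hGG : GG β φ b x H P P' * (H : ℝ) ^ 2 =
      ∑ h ∈ range H, ∑ h' ∈ range H, (∫ θ, F h h' θ ∂(mm r)).re := by
    unfold GG
    rw [div_mul_cancel₀ _ (by positivity), hF]
  have limS : Tendsto (fun M : ℕ => ∑ h ∈ range H, ∑ h' ∈ range H,
      (∑ y ∈ Icc 1 M, (F h h' (y • β)).re) / (M : ℝ)) atTop
      (𝓝 (GG β φ b x H P P' * (H : ℝ) ^ 2)) := by
    rw [hGG]
    exact tendsto_finsetSum _ fun h _ => tendsto_finsetSum _ fun h' _ => lim h h'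
  have hsum : ∀ M : ℕ, ∑ h ∈ range H, ∑ h' ∈ range H,
      (∑ y ∈ Icc 1 M, (F h h' (y • β)).re) / (M : ℝ) =
      (∑ h ∈ range H, ∑ h' ∈ range H, ∑ y ∈ Icc 1 M,
        (inner ℂ (t (y + h)) (t (y + h')) : ℂ).re) / M := by
    intro M
    rw [Finset.sum_div]
    refine Finset.sum_congr rfl fun h _ => ?_
    rw [Finset.sum_div]
    refine Finset.sum_congr rfl fun h' _ => ?_
    congr 1
    refine Finset.sum_congr rfl fun y _ => ?_
    rw [hin]
  have hpos : ∀ M : ℕ, 0 ≤ ∑ h ∈ range H, ∑ h' ∈ range H, ∑ y ∈ Icc 1 M,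
        (inner ℂ (t (y + h)) (t (y + h')) : ℂ).re := by
    intro M
    have e1 : ∑ h ∈ range H, ∑ h' ∈ range H, ∑ y ∈ Icc 1 M,
        (inner ℂ (t (y + h)) (t (y + h')) : ℂ).re =
        ∑ y ∈ Icc 1 M, (inner ℂ (∑ h ∈ range H, t (y + h)) (∑ h ∈ range H, t (y + h)) : ℂ).re := by
      have e2 : ∀ y, (inner ℂ (∑ h ∈ range H, t (y + h)) (∑ h ∈ range H, t (y + h)) : ℂ).re =
          ∑ h ∈ range H, ∑ h' ∈ range H, (inner ℂ (t (y + h)) (t (y + h')) : ℂ).re := by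
        intro y
        rw [sum_inner, Complex.re_sum]
        refine Finset.sum_congr rfl fun h _ => ?_
        rw [inner_sum, Complex.re_sum]
      simp only [e2]
      symm
      rw [Finset.sum_comm]
      refine Finset.sum_congr rfl fun h _ => ?_
      exact Finset.sum_comm
    rw [e1]
    refine Finset.sum_nonneg fun y _ => ?_
    exact inner_self_nonneg (𝕜 := ℂ)
  have hG0 : 0 ≤ GG β φ b x H P P' := by
    have e1 : 0 ≤ GG β φ b x H P P' * (H : ℝ) ^ 2 := by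
      refine ge_of_tendsto' limS fun M => ?_
      rw [hsum]
      exact div_nonneg (hpos M) (Nat.cast_nonneg _)
    exact nonneg_of_mul_nonneg_left e1 (by positivity)
  refine ⟨hG0, fun ε hε => ?_⟩
  -- the bracket
  obtain ⟨g, hg⟩ : ∃ g : ℝ, g = GG β φ b x H P P' := ⟨_, rfl⟩
  rw [← hg] at limS hG0 ⊢
  have hlt : g < (Real.sqrt g + ε) ^ 2 := by
    have e1 := Real.sq_sqrt hG0
    have e2 := Real.sqrt_nonneg g
    nlinarith
  have l1 : Tendsto (fun M : ℕ => (1 : ℝ) / M) atTop (𝓝 0) := tendsto_one_div_atTop_nhds_zero_nat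
  have l2 : Tendsto (fun M : ℕ => (∑ h ∈ range H, ∑ h' ∈ range H,
      (∑ y ∈ Icc 1 M, (F h h' (y • β)).re) / (M : ℝ)) / (H : ℝ) ^ 2 +
      4 * H * (1 / (M : ℝ)) + 4 * (H : ℝ) ^ 2 * ((1 / (M : ℝ)) * (1 / (M : ℝ)))) atTop
      (𝓝 (g * (H : ℝ) ^ 2 / (H : ℝ) ^ 2 + 4 * H * 0 + 4 * (H : ℝ) ^ 2 * (0 * 0))) :=
    ((limS.div_const _).add (l1.const_mul _)).add ((l1.mul l1).const_mul _)
  have e0 : g * (H : ℝ) ^ 2 / (H : ℝ) ^ 2 + 4 * H * 0 + 4 * (H : ℝ) ^ 2 * (0 * 0) = g := by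
    field_simp
    ring
  rw [e0] at l2
  have ev := (l2.eventually (gt_mem_nhds hlt)).and (eventually_ge_atTop 1)
  obtain ⟨M₀, hM₀⟩ := eventually_atTop.1 ev
  refine ⟨M₀, fun M hM => ?_⟩
  obtain ⟨hb2, hM1⟩ := hM₀ M hM
  have hMR : (1 : ℝ) ≤ M := by exact_mod_cast hM1
  have hM0 : (0 : ℝ) < M := by linarith
  have hv := h2 (EuclideanSpace ℂ (Fin d × Fin d)) t M H htn hH
  rw [hsum] at hb2
  obtain ⟨S, hS⟩ : ∃ S : ℝ, S = ∑ h ∈ range H, ∑ h' ∈ range H, ∑ y ∈ Icc 1 M,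
    (inner ℂ (t (y + h)) (t (y + h')) : ℂ).re := ⟨_, rfl⟩
  rw [← hS] at hv hb2
  have hnorm : ‖∑ y ∈ Icc 1 M, t y‖ ≤ (Real.sqrt g + ε) * M := by
    have k1 : ‖∑ y ∈ Icc 1 M, t y‖ ^ 2 ≤ ((Real.sqrt g + ε) * M) ^ 2 := by
      have k2 : (H : ℝ) ^ 2 * ‖∑ y ∈ Icc 1 M, t y‖ ^ 2 ≤
          (H : ℝ) ^ 2 * ((Real.sqrt g + ε) * M) ^ 2 := by
        refine hv.trans ?_
        have k3 : (M : ℝ) * S + 4 * (H : ℝ) ^ 3 * M + 4 * (H : ℝ) ^ 4 =
            (H : ℝ) ^ 2 * (M : ℝ) ^ 2 * (S / M / (H : ℝ) ^ 2 + 4 * H * (1 / (M : ℝ)) +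
              4 * (H : ℝ) ^ 2 * ((1 / (M : ℝ)) * (1 / (M : ℝ)))) := by
          field_simp
        rw [k3]
        have k4 : (H : ℝ) ^ 2 * ((Real.sqrt g + ε) * M) ^ 2 =
            (H : ℝ) ^ 2 * (M : ℝ) ^ 2 * (Real.sqrt g + ε) ^ 2 := by ring
        rw [k4]
        exact mul_le_mul_of_nonneg_left hb2.le (by positivity)
      exact le_of_mul_le_mul_left k2 (by positivity)
    have k5 : 0 ≤ (Real.sqrt g + ε) * M := by
      have := Real.sqrt_nonneg g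
      positivity
    exact (pow_le_pow_iff_left₀ (norm_nonneg _) k5 two_ne_zero).1 k1
  have hsumff : ∑ y ∈ Icc 1 M, ff β φ b u x (P * y) * conj (ff β φ b u x (P' * y)) =
      (inner ℂ (∑ y ∈ Icc 1 M, t y) (gam_t u u) : ℂ) := by
    rw [sum_inner]
    refine Finset.sum_congr rfl fun y _ => ?_
    rw [ht]
    simp only
    rw [gam_inner, ff_eq, ff_eq]
  rw [hsumff]
  refine (norm_inner_le_norm _ _).trans ?_
  rw [gam_norm]
  have huu : ‖u‖ * ‖u‖ ≤ 1 := mul_le_one₀ hu (norm_nonneg _) hu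
  calc ‖∑ y ∈ Icc 1 M, t y‖ * (‖u‖ * ‖u‖) ≤ ‖∑ y ∈ Icc 1 M, t y‖ * 1 :=
        mul_le_mul_of_nonneg_left huu (norm_nonneg _)
    _ ≤ (Real.sqrt g + ε) * M := by rw [mul_one]; exact hnorm

end Pool.Agent.Helper16.AZ
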